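import Mathlib

/-! Primitive permutation groups which are almost `R`-transitive and have a small conjugacy class
contain the alternating group. -/

set_option autoImplicit false

open Equiv Equiv.Perm MulAction

namespace Pool.Agent.Lib.MP_7ab245_nt.Solv.AT

/-- all tuples of at most `R` distinct points have an orbit with at least `|α| ^ r / q` elements -/
def NT (Γ α : Type) [Group Γ] [MulAction Γ α] (q R : ℕ) : Prop :=
  ∀ (ι : Type) [Fintype ι], Fintype.card ι ≤ R → ∀ x : ι → α, Function.Injective x →
    Nat.card α ^ Fintype.card ι ≤ q * Nat.card (Set.range fun g : Γ => fun i => g • x i)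

/-- number of conjugates of `γ` -/
noncomputable def cls {Γ : Type} [Group Γ] (γ : Γ) : ℕ :=
  Nat.card (Set.range fun s : Γ => s * γ * s⁻¹)

theorem cls_eq {Γ : Type} [Group Γ] (γ : Γ) :
    cls γ = (Subgroup.centralizer {γ}).index := by
  rw [cls, Subgroup.index]
  refine (Nat.card_congr (Equiv.ofBijective (Quotient.lift
    (fun s : Γ => (⟨s * γ * s⁻¹, ⟨s, rfl⟩⟩ : Set.range fun s : Γ => s * γ * s⁻¹)) ?_) ⟨?_, ?_⟩)).symm
  · intro a b hab
    have h1 : a⁻¹ * b ∈ Subgroup.centralizer {γ} := QuotientGroup.leftRel_apply.1 hab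
    rw [Subgroup.mem_centralizer_singleton_iff] at h1
    apply Subtype.ext
    change a * γ * a⁻¹ = b * γ * b⁻¹
    have h2 : b = a * (a⁻¹ * b) := by group
    calc a * γ * a⁻¹ = a * (γ * (a⁻¹ * b)) * b⁻¹ := by group
      _ = a * ((a⁻¹ * b) * γ) * b⁻¹ := by rw [h1]
      _ = b * γ * b⁻¹ := by group
  · rintro ⟨a⟩ ⟨b⟩ hab
    have h1 : a * γ * a⁻¹ = b * γ * b⁻¹ := congrArg Subtype.val hab
    apply Quotient.sound
    apply QuotientGroup.leftRel_apply.2
    rw [Subgroup.mem_centralizer_singleton_iff]
    calc (a⁻¹ * b) * γ = a⁻¹ * (b * γ * b⁻¹) * b := by group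
      _ = a⁻¹ * (a * γ * a⁻¹) * b := by rw [h1]
      _ = γ * (a⁻¹ * b) := by group
  · rintro ⟨_, ⟨s, rfl⟩⟩
    exact ⟨Quotient.mk _ s, rfl⟩

section perm
variable {α : Type} [DecidableEq α] [Fintype α]

private theorem apply_inv_self' (f : Perm α) (x : α) : f (f⁻¹ x) = x := by simp

private theorem inv_apply_self' (f : Perm α) (x : α) : f⁻¹ (f x) = x := by simp

/-- the commutator of two permutations with exactly one common moved point is a 3-cycle -/
theorem commutator_isThreeCycle (f g : Perm α) (p : α) (hf : f p ≠ p) (hg : g p ≠ p)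
    (h : ∀ x, f x ≠ x → g x ≠ x → x = p) : (f * g * f⁻¹ * g⁻¹).IsThreeCycle := by
  have hfg : ∀ x, x ≠ p → f x ≠ x → g x = x := fun x hx h1 => by
    by_contra h2; exact hx (h x h1 h2)
  have hgf : ∀ x, x ≠ p → g x ≠ x → f x = x := fun x hx h1 => by
    by_contra h2; exact hx (h x h2 h1)
  have hffp : f (f p) ≠ f p := fun h1 => hf (f.injective h1)
  have hggp : g (g p) ≠ g p := fun h1 => hg (g.injective h1)
  have hfgp : f (g p) = g p := hgf _ hg hggp
  have hgfp : g (f p) = f p := hfg _ hf hffp
  have hne : g p ≠ f p := by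
    intro h1
    rw [← h1] at hffp
    exact hffp hfgp
  have key : f * g * f⁻¹ * g⁻¹ = swap p (g p) * swap p (f p) := by
    ext x
    simp only [Perm.mul_apply]
    by_cases h1 : x = p
    · subst h1
      have h2 : g⁻¹ x ≠ x := by
        intro h3
        apply hg
        conv_lhs => rw [← h3]
        simp
      have h4 : f (g⁻¹ x) = g⁻¹ x := by
        apply hgf _ h2
        intro h3
        rw [apply_inv_self'] at h3
        exact h2 h3.symm
      have h5 : f⁻¹ (g⁻¹ x) = g⁻¹ x := by
        conv_lhs => rw [← h4]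
        simp
      rw [h5, apply_inv_self', swap_apply_left, swap_apply_of_ne_of_ne hf hne.symm]
    by_cases h2 : x = f p
    · subst h2
      have h3 : g⁻¹ (f p) = f p := by
        conv_lhs => rw [← hgfp]
        simp
      rw [h3, inv_apply_self', hfgp, swap_apply_right, swap_apply_left]
    by_cases h3 : x = g p
    · subst h3
      rw [inv_apply_self']
      have h4 : f⁻¹ p ≠ p := by
        intro h5
        apply hf
        conv_lhs => rw [← h5]
        simp
      have h6 : g (f⁻¹ p) = f⁻¹ p := by
        apply hfg _ h4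
        intro h5
        rw [apply_inv_self'] at h5
        exact h4 h5.symm
      rw [h6, apply_inv_self', swap_apply_of_ne_of_ne h1 h2, swap_apply_right]
    rw [swap_apply_of_ne_of_ne h1 h2, swap_apply_of_ne_of_ne h1 h3]
    by_cases h4 : g x = x
    · have h5 : g⁻¹ x = x := by
        conv_lhs => rw [← h4]
        simp
      rw [h5]
      by_cases h6 : f x = x
      · have h7 : f⁻¹ x = x := by
          conv_lhs => rw [← h6]
          simp
        rw [h7, h4, h6]
      · have h7 : f⁻¹ x ≠ p := by
          intro h8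
          apply h2
          rw [← h8]; simp
        have h9 : g (f⁻¹ x) = f⁻¹ x := by
          apply hfg _ h7
          intro h10
          rw [apply_inv_self'] at h10
          apply h6
          conv_lhs => rw [h10]
          simp
        rw [h9, apply_inv_self']
    · have h5 : g⁻¹ x ≠ p := by
        intro h8
        apply h3
        rw [← h8]; simp
      have h6 : g (g⁻¹ x) ≠ g⁻¹ x := by
        intro h7
        rw [apply_inv_self'] at h7
        apply h4
        conv_lhs => rw [h7]
        simp
      have h7 : f (g⁻¹ x) = g⁻¹ x := hgf _ h5 h6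
      have h8 : f⁻¹ (g⁻¹ x) = g⁻¹ x := by
        conv_lhs => rw [← h7]
        simp
      rw [h8, apply_inv_self', hgf x h1 h4]
  rw [key]
  exact isThreeCycle_swap_mul_swap_same hg.symm hf.symm hne

end perm

section act
variable {Γ α : Type} [Group Γ] [Finite Γ] [MulAction Γ α] [Finite α]

/-- `x_1, …, x_s, γ x_1, …, γ x_s` distinct: `|α| ^ s ≤ q * cls γ` -/
theorem cls_ge {q R s : ℕ} (hNT : NT Γ α q R) (hs : 2 * s ≤ R) (hα : 1 ≤ Nat.card α) (γ : Γ)
    (x : Fin s → α) (hx : Function.Injective (Sum.elim x fun i => γ • x i)) :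
    Nat.card α ^ s ≤ q * cls γ := by
  classical
  have := Fintype.ofFinite α
  have h1 := hNT (Fin s ⊕ Fin s) (by simp; omega) _ hx
  have hcard : Fintype.card (Fin s ⊕ Fin s) = s + s := by simp
  rw [hcard] at h1
  have h2 : Nat.card (Set.range fun g : Γ => fun i => g • (Sum.elim x fun i => γ • x i) i) ≤
      Nat.card α ^ s * cls γ := by
    set C : Set Γ := Set.range fun s : Γ => s * γ * s⁻¹ with hC
    have h3 : (Set.range fun g : Γ => fun i => g • (Sum.elim x fun i => γ • x i) i) ⊆
        Set.range (fun p : (Fin s → α) × C => (Sum.elim p.1 fun i => (p.2 : Γ) • p.1 i)) := by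
      rintro _ ⟨g, rfl⟩
      refine ⟨(fun i => g • x i, ⟨g * γ * g⁻¹, ⟨g, rfl⟩⟩), ?_⟩
      funext i
      cases i with
      | inl i => rfl
      | inr i =>
        simp only [Sum.elim_inr, smul_smul]
        congr 1
        group
    have h4 : Nat.card (Set.range (fun p : (Fin s → α) × C =>
        (Sum.elim p.1 fun i => (p.2 : Γ) • p.1 i))) ≤ Nat.card ((Fin s → α) × C) :=
      Finite.card_range_le _
    have h5 : Nat.card ((Fin s → α) × C) = Nat.card α ^ s * cls γ := by
      rw [Nat.card_prod, Nat.card_fun, Nat.card_fin]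
      rfl
    calc _ ≤ _ := Nat.card_mono (Set.toFinite _) h3
      _ ≤ _ := h4
      _ = _ := h5
  have h6 : Nat.card α ^ s * Nat.card α ^ s ≤ Nat.card α ^ s * (q * cls γ) := by
    calc Nat.card α ^ s * Nat.card α ^ s = Nat.card α ^ (s + s) := (pow_add _ _ _).symm
      _ ≤ _ := h1
      _ ≤ q * (Nat.card α ^ s * cls γ) := Nat.mul_le_mul_left _ h2
      _ = _ := by ring
  exact Nat.le_of_mul_le_mul_left h6 (Nat.pow_pos hα)

/-- many moved points: a system of `s` moved points with all `x_i, γ x_i` distinct -/
theorem exists_system (γ : Γ) (κ : ℕ) (h : 3 * κ < {x : α | γ • x ≠ x}.ncard) :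
    ∀ s, s ≤ κ + 1 → ∃ x : Fin s → α, Function.Injective (Sum.elim x fun i => γ • x i) := by
  intro s
  induction s with
  | zero => exact fun _ => ⟨Fin.elim0, fun i => by rcases i with i | i <;> exact i.elim0⟩
  | succ s ih =>
    intro hs
    obtain ⟨x, hx⟩ := ih (by omega)
    set B : Set α := Set.range x ∪ (Set.range fun i => γ • x i) ∪ (Set.range fun i => γ⁻¹ • x i)
      with hB
    have hBcard : B.ncard ≤ 3 * s := by
      have h1 : ∀ f : Fin s → α, (Set.range f).ncard ≤ s := fun f => by
        have := Finite.card_range_le f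
        rwa [Nat.card_fin] at this
      calc B.ncard ≤ (Set.range x ∪ (Set.range fun i => γ • x i)).ncard +
            (Set.range fun i => γ⁻¹ • x i).ncard := Set.ncard_union_le _ _
        _ ≤ ((Set.range x).ncard + (Set.range fun i => γ • x i).ncard) +
            (Set.range fun i => γ⁻¹ • x i).ncard := by
              gcongr; exact Set.ncard_union_le _ _
        _ ≤ s + s + s := by gcongr <;> exact h1 _
        _ = 3 * s := by ring
    obtain ⟨p, hp, hpB⟩ : ∃ p, p ∈ {x : α | γ • x ≠ x} ∧ p ∉ B := by
      by_contra hcon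
      push Not at hcon
      have h2 : {x : α | γ • x ≠ x} ⊆ B := hcon
      have := Set.ncard_le_ncard h2 (Set.toFinite _)
      omega
    have hp1 : ∀ i, x i ≠ p := fun i hi => hpB (Or.inl (Or.inl ⟨i, hi⟩))
    have hp2 : ∀ i, γ • x i ≠ p := fun i hi => hpB (Or.inl (Or.inr ⟨i, hi⟩))
    have hp3 : ∀ i, γ • p ≠ x i := fun i hi => hpB (Or.inr ⟨i, by
      change γ⁻¹ • x i = p
      rw [← hi, inv_smul_smul]⟩)
    have hp4 : ∀ i, γ • p ≠ γ • x i := fun i hi => hp1 i ((smul_left_cancel γ hi).symm)
    refine ⟨Fin.snoc x p, ?_⟩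
    have hpp : γ • p ≠ p := hp
    have hxl : ∀ i j, x i = x j → i = j := fun i j hij => Sum.inl_injective (hx hij)
    have hxr : ∀ i j, x i ≠ γ • x j := fun i j hij => by
      have := @hx (Sum.inl i) (Sum.inr j) hij
      cases this
    rintro (i | i) (j | j) hij
    · simp only [Sum.elim_inl] at hij
      congr 1
      induction i using Fin.lastCases with
      | last =>
        induction j using Fin.lastCases with
        | last => rfl
        | cast j => rw [Fin.snoc_last, Fin.snoc_castSucc] at hij; exact absurd hij.symm (hp1 j)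
      | cast i =>
        induction j using Fin.lastCases with
        | last => rw [Fin.snoc_last, Fin.snoc_castSucc] at hij; exact absurd hij (hp1 i)
        | cast j => rw [Fin.snoc_castSucc, Fin.snoc_castSucc] at hij; rw [hxl i j hij]
    · simp only [Sum.elim_inl, Sum.elim_inr] at hij
      exfalso
      induction i using Fin.lastCases with
      | last =>
        induction j using Fin.lastCases with
        | last => rw [Fin.snoc_last] at hij; exact hpp hij.symm
        | cast j => rw [Fin.snoc_last, Fin.snoc_castSucc] at hij; exact hp2 j hij.symm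
      | cast i =>
        induction j using Fin.lastCases with
        | last => rw [Fin.snoc_last, Fin.snoc_castSucc] at hij; exact hp3 i hij.symm
        | cast j => rw [Fin.snoc_castSucc, Fin.snoc_castSucc] at hij; exact hxr i j hij
    · simp only [Sum.elim_inl, Sum.elim_inr] at hij
      exfalso
      induction i using Fin.lastCases with
      | last =>
        induction j using Fin.lastCases with
        | last => rw [Fin.snoc_last] at hij; exact hpp hij
        | cast j => rw [Fin.snoc_last, Fin.snoc_castSucc] at hij; exact hp3 j hij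
      | cast i =>
        induction j using Fin.lastCases with
        | last => rw [Fin.snoc_last, Fin.snoc_castSucc] at hij; exact hp2 i hij
        | cast j => rw [Fin.snoc_castSucc, Fin.snoc_castSucc] at hij; exact hxr j i hij.symm
    · simp only [Sum.elim_inr] at hij
      have hij' := smul_left_cancel γ hij
      congr 1
      induction i using Fin.lastCases with
      | last =>
        induction j using Fin.lastCases with
        | last => rfl
        | cast j => rw [Fin.snoc_last, Fin.snoc_castSucc] at hij'; exact absurd hij'.symm (hp1 j)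
      | cast i =>
        induction j using Fin.lastCases with
        | last => rw [Fin.snoc_last, Fin.snoc_castSucc] at hij'; exact absurd hij' (hp1 i)
        | cast j => rw [Fin.snoc_castSucc, Fin.snoc_castSucc] at hij'; rw [hxl i j hij']

/-- few conjugates: few moved points -/
theorem support_le {q κ : ℕ} (hNT : NT Γ α q (2 * κ + 2)) (hα : 1 ≤ Nat.card α) (γ : Γ)
    (h : q * cls γ < Nat.card α ^ (κ + 1)) : {x : α | γ • x ≠ x}.ncard ≤ 3 * κ := by
  by_contra hcon
  push Not at hcon
  obtain ⟨x, hx⟩ := exists_system γ κ hcon (κ + 1) le_rfl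
  have := cls_ge hNT (by omega) hα γ x hx
  omega

/-- almost 2-transitivity: orbits of point stabilisers are large -/
theorem stab_orbit_ge {q R : ℕ} (hNT : NT Γ α q R) (hR : 2 ≤ R) (p u : α) (hpu : p ≠ u) :
    Nat.card α ≤ q * Nat.card (orbit (stabilizer Γ p) u) := by
  classical
  have := Fintype.ofFinite α
  have hinj : Function.Injective (![p, u] : Fin 2 → α) := by
    intro i j hij
    fin_cases i <;> fin_cases j <;> simp_all
  have h1 := hNT (Fin 2) (by simpa using hR) _ hinj
  rw [Fintype.card_fin] at h1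
  have hex : ∀ v : α, ∃ t : Γ, (∃ g : Γ, g • p = v) → t • p = v := by
    intro v
    by_cases h : ∃ g : Γ, g • p = v
    · obtain ⟨g, hg⟩ := h
      exact ⟨g, fun _ => hg⟩
    · exact ⟨1, fun h' => absurd h' h⟩
  choose t ht using hex
  have h3 : (Set.range fun g : Γ => fun i => g • (![p, u] : Fin 2 → α) i) ⊆
      Set.range (fun z : α × orbit (stabilizer Γ p) u => (![z.1, t z.1 • (z.2 : α)] : Fin 2 → α)) := by
    rintro _ ⟨g, rfl⟩
    have hk : (t (g • p))⁻¹ * g ∈ stabilizer Γ p := by
      rw [mem_stabilizer_iff, mul_smul, inv_smul_eq_iff]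
      exact (ht (g • p) ⟨g, rfl⟩).symm
    refine ⟨(g • p, ⟨(⟨_, hk⟩ : stabilizer Γ p) • u, ⟨_, rfl⟩⟩), ?_⟩
    funext i
    fin_cases i
    · rfl
    · change t (g • p) • (((t (g • p))⁻¹ * g) • u) = g • u
      rw [mul_smul, smul_inv_smul]
  have h4 : Nat.card (Set.range fun g : Γ => fun i => g • (![p, u] : Fin 2 → α) i) ≤
      Nat.card α * Nat.card (orbit (stabilizer Γ p) u) := by
    calc _ ≤ Nat.card (Set.range (fun z : α × orbit (stabilizer Γ p) u =>
          (![z.1, t z.1 • (z.2 : α)] : Fin 2 → α))) := Nat.card_mono (Set.toFinite _) h3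
      _ ≤ Nat.card (α × orbit (stabilizer Γ p) u) := Finite.card_range_le _
      _ = _ := Nat.card_prod _ _
  have hα : 0 < Nat.card α := Nat.card_pos_iff.2 ⟨⟨p⟩, inferInstance⟩
  have h5 : Nat.card α * Nat.card α ≤ Nat.card α * (q * Nat.card (orbit (stabilizer Γ p) u)) := by
    calc Nat.card α * Nat.card α = Nat.card α ^ 2 := (sq _).symm
      _ ≤ _ := h1
      _ ≤ q * (Nat.card α * Nat.card (orbit (stabilizer Γ p) u)) := Nat.mul_le_mul_left _ h4
      _ = _ := by ring
  exact Nat.le_of_mul_le_mul_left h5 hα

/-- number of elements of a group which map `u` into `S` -/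
theorem card_smul_mem_le {K β : Type} [Group K] [Finite K] [MulAction K β] [Finite β] (u : β)
    (S : Set β) : Nat.card (orbit K u) * {k : K | k • u ∈ S}.ncard ≤ S.ncard * Nat.card K := by
  classical
  have := Fintype.ofFinite K
  have := Fintype.ofFinite β
  have h1 : ∀ v : β, {k : K | k • u = v}.ncard ≤ Nat.card (stabilizer K u) := by
    intro v
    by_cases h : ∃ k : K, k • u = v
    · obtain ⟨k₀, hk₀⟩ := h
      have : {k : K | k • u = v} = (fun s => k₀ * s) '' (stabilizer K u : Set K) := by
        ext k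
        constructor
        · intro hk
          refine ⟨k₀⁻¹ * k, ?_, by simp⟩
          change (k₀⁻¹ * k) • u = u
          rw [mul_smul, inv_smul_eq_iff, hk₀]
          exact hk
        · rintro ⟨s, hs, rfl⟩
          change (k₀ * s) • u = v
          rw [mul_smul]
          have : s • u = u := hs
          rw [this, hk₀]
      rw [this]
      exact Set.ncard_image_le (Set.toFinite _)
    · have : {k : K | k • u = v} = ∅ := by
        ext k
        simp only [Set.mem_setOf_eq, Set.mem_empty_iff_false, iff_false]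
        exact fun hk => h ⟨k, hk⟩
      rw [this]
      simp
  have h2 : {k : K | k • u ∈ S}.ncard ≤ S.ncard * Nat.card (stabilizer K u) := by
    have h3 : {k : K | k • u ∈ S} ⊆ ⋃ v ∈ (Set.toFinite S).toFinset, {k : K | k • u = v} := by
      intro k hk
      simp only [Set.mem_iUnion]
      exact ⟨k • u, (Set.Finite.mem_toFinset _).2 hk, rfl⟩
    refine (Set.ncard_le_ncard h3 (Set.toFinite _)).trans ?_
    calc _ ≤ ∑ v ∈ (Set.toFinite S).toFinset, {k : K | k • u = v}.ncard :=
          Finset.set_ncard_biUnion_le _ _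
      _ ≤ ∑ v ∈ (Set.toFinite S).toFinset, Nat.card (stabilizer K u) :=
          Finset.sum_le_sum fun v _ => h1 v
      _ = _ := by
          rw [Finset.sum_const, smul_eq_mul, Set.ncard_eq_toFinset_card S]
  have h4 : Nat.card (orbit K u) * Nat.card (stabilizer K u) = Nat.card K := by
    rw [Nat.card_eq_fintype_card, Nat.card_eq_fintype_card, Nat.card_eq_fintype_card]
    exact card_orbit_mul_card_stabilizer_eq_card_group K u
  calc Nat.card (orbit K u) * {k : K | k • u ∈ S}.ncard ≤
        Nat.card (orbit K u) * (S.ncard * Nat.card (stabilizer K u)) := Nat.mul_le_mul_left _ h2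
    _ = S.ncard * (Nat.card (orbit K u) * Nat.card (stabilizer K u)) := by ring
    _ = _ := by rw [h4]

/-- a conjugate which meets the support in exactly one point -/
theorem exists_conj {q R : ℕ} (hNT : NT Γ α q R) (hR : 2 ≤ R) (S : Set α) (p : α)
    (hS : q * S.ncard ^ 2 < Nat.card α) :
    ∃ σ : Γ, σ • p = p ∧ ∀ u ∈ S, u ≠ p → σ • u ∉ S := by
  classical
  by_contra hcon
  push Not at hcon
  set K := stabilizer Γ p with hK
  have h1 : (Set.univ : Set K) ⊆ ⋃ u ∈ ((Set.toFinite S).toFinset.erase p),
      {k : K | k • u ∈ S} := by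
    intro k _
    obtain ⟨u, hu, hup, huS⟩ := hcon k k.2
    simp only [Set.mem_iUnion]
    exact ⟨u, by simp [hu, hup], huS⟩
  have h2 : Nat.card K ≤ ∑ u ∈ ((Set.toFinite S).toFinset.erase p), {k : K | k • u ∈ S}.ncard := by
    calc Nat.card K = (Set.univ : Set K).ncard := (Set.ncard_univ K).symm
      _ ≤ _ := Set.ncard_le_ncard h1 (Set.toFinite _)
      _ ≤ _ := Finset.set_ncard_biUnion_le _ _
  have h3 : ∀ u ∈ ((Set.toFinite S).toFinset.erase p),
      Nat.card α * {k : K | k • u ∈ S}.ncard ≤ q * (S.ncard * Nat.card K) := by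
    intro u hu
    have hup : p ≠ u := (Finset.ne_of_mem_erase hu).symm
    have h4 := stab_orbit_ge hNT hR p u hup
    have h5 := card_smul_mem_le (K := K) u S
    calc Nat.card α * {k : K | k • u ∈ S}.ncard ≤
          (q * Nat.card (orbit K u)) * {k : K | k • u ∈ S}.ncard := Nat.mul_le_mul_right _ h4
      _ = q * (Nat.card (orbit K u) * {k : K | k • u ∈ S}.ncard) := by ring
      _ ≤ _ := Nat.mul_le_mul_left _ h5
  have h6 : Nat.card α * Nat.card K ≤ S.ncard * (q * (S.ncard * Nat.card K)) := by
    calc Nat.card α * Nat.card K ≤ Nat.card α *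
          ∑ u ∈ ((Set.toFinite S).toFinset.erase p), {k : K | k • u ∈ S}.ncard :=
          Nat.mul_le_mul_left _ h2
      _ = ∑ u ∈ ((Set.toFinite S).toFinset.erase p), Nat.card α * {k : K | k • u ∈ S}.ncard :=
          Finset.mul_sum _ _ _
      _ ≤ ∑ u ∈ ((Set.toFinite S).toFinset.erase p), q * (S.ncard * Nat.card K) :=
          Finset.sum_le_sum h3
      _ = ((Set.toFinite S).toFinset.erase p).card * (q * (S.ncard * Nat.card K)) := by
          rw [Finset.sum_const, smul_eq_mul]
      _ ≤ S.ncard * (q * (S.ncard * Nat.card K)) := by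
          apply Nat.mul_le_mul_right
          rw [Set.ncard_eq_toFinset_card S]
          exact Finset.card_erase_le
  have hKpos : 0 < Nat.card K := Nat.card_pos
  have h7 : Nat.card α ≤ q * S.ncard ^ 2 := by
    apply Nat.le_of_mul_le_mul_right _ hKpos
    calc Nat.card α * Nat.card K ≤ S.ncard * (q * (S.ncard * Nat.card K)) := h6
      _ = _ := by ring
  omega

/-- THEOREM P: almost transitive primitive groups with a small class contain `Alt`. -/
theorem alternating_le [FaithfulSMul Γ α] [DecidableEq α] [Fintype α] (hprim : IsPreprimitive Γ α)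
    {q κ : ℕ} (hNT : NT Γ α q (2 * κ + 2)) (γ : Γ) (hγ : γ ≠ 1)
    (h : q * cls γ < Nat.card α ^ (κ + 1)) (h2 : q * (3 * κ) ^ 2 < Nat.card α) :
    alternatingGroup α ≤ (toPermHom Γ α).range := by
  classical
  have hα : 1 ≤ Nat.card α := by omega
  set S : Set α := {x : α | γ • x ≠ x} with hSdef
  have hS : S.ncard ≤ 3 * κ := support_le hNT hα γ h
  obtain ⟨p, hp⟩ : ∃ p : α, γ • p ≠ p := by
    by_contra hcon
    push Not at hcon
    exact hγ (FaithfulSMul.eq_of_smul_eq_smul fun x => by rw [hcon x, one_smul])
  obtain ⟨σ, hσp, hσ⟩ := exists_conj hNT (by omega) S p (by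
    calc q * S.ncard ^ 2 ≤ q * (3 * κ) ^ 2 := by gcongr
      _ < _ := h2)
  set f : Perm α := toPermHom Γ α γ with hf
  set g : Perm α := toPermHom Γ α (σ * γ * σ⁻¹) with hg
  have hfx : ∀ x, f x = γ • x := fun x => rfl
  have hgx : ∀ x, g x = (σ * γ * σ⁻¹) • x := fun x => rfl
  have hσp' : σ⁻¹ • p = p := by rw [inv_smul_eq_iff, hσp]
  have h3 : (f * g * f⁻¹ * g⁻¹).IsThreeCycle := by
    apply commutator_isThreeCycle f g p
    · rw [hfx]; exact hp
    · rw [hgx, mul_smul, mul_smul, hσp']
      intro h4
      exact hp (smul_left_cancel σ (h4.trans hσp.symm))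
    · intro x hx1 hx2
      by_contra hxp
      rw [hfx] at hx1
      rw [hgx, mul_smul, mul_smul] at hx2
      have hu : γ • (σ⁻¹ • x) ≠ σ⁻¹ • x := by
        intro h4
        apply hx2
        rw [h4, smul_inv_smul]
      have hup : σ⁻¹ • x ≠ p := by
        intro h4
        apply hxp
        rw [inv_smul_eq_iff] at h4
        rw [h4, hσp]
      have := hσ (σ⁻¹ • x) hu hup
      rw [smul_inv_smul] at this
      exact this hx1
  have hG : IsPreprimitive (toPermHom Γ α).range α := by
    have : Function.Surjective (toPermHom Γ α).rangeRestrict :=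
      (toPermHom Γ α).rangeRestrict_surjective
    let φ : α →ₑ[((toPermHom Γ α).rangeRestrict : Γ → (toPermHom Γ α).range)] α :=
      { toFun := id, map_smul' := fun m x => rfl }
    exact IsPreprimitive.of_surjective (f := φ) Function.surjective_id
  exact alternatingGroup_le_of_isPreprimitive_of_isThreeCycle_mem hG h3
    (Subgroup.mul_mem _ (Subgroup.mul_mem _ (Subgroup.mul_mem _ ⟨_, rfl⟩ ⟨_, rfl⟩)
      (Subgroup.inv_mem _ ⟨_, rfl⟩)) (Subgroup.inv_mem _ ⟨_, rfl⟩))

end act

end Pool.Agent.Lib.MP_7ab245_nt.Solv.AT
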