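import Mathlib
import Pool.Agent.Lib.MP_7ab245_nt.Solv.AT.Perm

/-! From a group acting on a set to the action of a subgroup on an orbit. -/

set_option autoImplicit false

open MulAction

namespace Pool.Agent.Lib.MP_7ab245_nt.Solv.AT

theorem pair_injective {β : Type} {x y : β} (h : x ≠ y) :
    Function.Injective (![x, y] : Fin 2 → β) := by
  intro i j hij
  fin_cases i <;> fin_cases j
  · rfl
  · exact absurd hij h
  · exact absurd hij.symm h
  · rfl

section
variable {G Γ α β : Type} [Group G] [Finite G] [Group Γ] [Finite Γ] [MulAction G β] [Finite β]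
  [MulAction Γ α] [Finite α] (S : Subgroup G) (φ : S →* Γ) (a : α) (b : β)

/-- the action of `Γ` on `α` inherits almost transitivity -/
theorem NT_sub {q R : ℕ} (hNT : NT G β q R) (hφ : Function.Surjective φ)
    (ha : ∀ x : α, ∃ γ : Γ, γ • a = x)
    (hkey : ∀ s t : S, φ s • a = φ t • a ↔ (s : G) • b = (t : G) • b)
    (hcard : Nat.card α ≤ Nat.card β) : NT Γ α (q * S.index) R := by
  classical
  intro ι _ hι x hx
  have hex : ∀ i, ∃ s : S, φ s • a = x i := by
    intro i
    obtain ⟨γ, hγ⟩ := ha (x i)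
    obtain ⟨s, rfl⟩ := hφ γ
    exact ⟨s, hγ⟩
  choose s hs using hex
  have hy : Function.Injective fun i => (s i : G) • b := by
    intro i j hij
    apply hx
    rw [← hs i, ← hs j]
    exact (hkey _ _).2 hij
  have h1 := hNT ι hι _ hy
  -- representatives of the cosets
  set A : Set (ι → β) := Set.range fun g : G => fun i => g • ((s i : G) • b) with hA
  set B : Set (ι → β) := Set.range fun t : S => fun i => (t : G) • ((s i : G) • b) with hB
  set C : Set (ι → α) := Set.range fun g : Γ => fun i => g • x i with hC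
  have hAB : Nat.card A ≤ S.index * Nat.card B := by
    have h2 : A ⊆ Set.range (fun z : (G ⧸ S) × B => (fun i => z.1.out • (z.2 : ι → β) i)) := by
      rintro _ ⟨g, rfl⟩
      have h3 : (QuotientGroup.mk g : G ⧸ S).out⁻¹ * g ∈ S := by
        rw [← QuotientGroup.leftRel_apply]
        exact Quotient.exact (Quotient.out_eq _)
      refine ⟨(QuotientGroup.mk g, ⟨_, ⟨⟨_, h3⟩, rfl⟩⟩), ?_⟩
      funext i
      change (QuotientGroup.mk g : G ⧸ S).out •
        (((QuotientGroup.mk g : G ⧸ S).out⁻¹ * g) • ((s i : G) • b)) = g • ((s i : G) • b)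
      rw [mul_smul, smul_inv_smul]
    calc Nat.card A ≤ _ := Nat.card_mono (Set.toFinite _) h2
      _ ≤ Nat.card ((G ⧸ S) × B) := Finite.card_range_le _
      _ = _ := by rw [Nat.card_prod]; rfl
  have hBC : Nat.card B = Nat.card C := by
    have hk : ∀ t t' : S, (fun i => (t : G) • ((s i : G) • b)) = (fun i => (t' : G) • ((s i : G) • b)) ↔
        (fun i => φ t • x i) = (fun i => φ t' • x i) := by
      intro t t'
      rw [funext_iff, funext_iff]
      apply forall_congr'
      intro i
      have h3 := hkey (t * s i) (t' * s i)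
      rw [map_mul, map_mul, mul_smul, mul_smul, hs i] at h3
      rw [h3, Subgroup.coe_mul, Subgroup.coe_mul, mul_smul, mul_smul]
    have e1 : Quotient (Setoid.ker fun t : S => fun i => (t : G) • ((s i : G) • b)) ≃ B :=
      Setoid.quotientKerEquivRange _
    have e2 : Quotient (Setoid.ker fun t : S => fun i => φ t • x i) ≃
        Set.range (fun t : S => fun i => φ t • x i) := Setoid.quotientKerEquivRange _
    have e3 : Setoid.ker (fun t : S => fun i => (t : G) • ((s i : G) • b)) =
        Setoid.ker fun t : S => fun i => φ t • x i := by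
      ext t t'
      exact hk t t'
    have e4 : Set.range (fun t : S => fun i => φ t • x i) = C := by
      ext z
      constructor
      · rintro ⟨t, rfl⟩
        exact ⟨φ t, rfl⟩
      · rintro ⟨γ, rfl⟩
        obtain ⟨t, rfl⟩ := hφ γ
        exact ⟨t, rfl⟩
    rw [← Nat.card_congr e1, e3, Nat.card_congr e2, e4]
  calc Nat.card α ^ Fintype.card ι ≤ Nat.card β ^ Fintype.card ι := Nat.pow_le_pow_left hcard _
    _ ≤ q * Nat.card A := h1
    _ ≤ q * (S.index * Nat.card B) := Nat.mul_le_mul_left _ hAB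
    _ = q * S.index * Nat.card C := by rw [hBC]; ring

/-- the number of points -/
theorem card_sub (hφ : Function.Surjective φ)
    (ha : ∀ x : α, ∃ γ : Γ, γ • a = x) (hb : ∀ y : β, ∃ g : G, g • b = y)
    (hkey : ∀ s t : S, φ s • a = φ t • a ↔ (s : G) • b = (t : G) • b)
    (hH : stabilizer G b ≤ S) : Nat.card β = Nat.card α * S.index := by
  have h1 : Nat.card β = (stabilizer G b).index := by
    rw [Subgroup.index]
    have h2 : orbit G b = Set.univ := by
      ext y
      simp only [Set.mem_univ, iff_true]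
      obtain ⟨g, hg⟩ := hb y
      exact ⟨g, hg⟩
    rw [← Nat.card_congr (orbitEquivQuotientStabilizer G b), h2]
    exact (Nat.card_congr (Equiv.Set.univ β)).symm
  have h3 : Nat.card α = (stabilizer Γ a).index := by
    rw [Subgroup.index]
    have h2 : orbit Γ a = Set.univ := by
      ext y
      simp only [Set.mem_univ, iff_true]
      obtain ⟨g, hg⟩ := ha y
      exact ⟨g, hg⟩
    rw [← Nat.card_congr (orbitEquivQuotientStabilizer Γ a), h2]
    exact (Nat.card_congr (Equiv.Set.univ α)).symm
  have h4 : (stabilizer Γ a).comap φ = (stabilizer G b).subgroupOf S := by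
    ext s
    rw [Subgroup.mem_comap, mem_stabilizer_iff, Subgroup.mem_subgroupOf, mem_stabilizer_iff]
    have := hkey s 1
    rw [map_one, one_smul] at this
    rw [this]
    simp
  have h5 : ((stabilizer Γ a).comap φ).index = (stabilizer Γ a).index :=
    Subgroup.index_comap_of_surjective _ hφ
  rw [h1, h3, ← h5, h4]
  exact (Subgroup.relIndex_mul_index hH).symm

/-- the index is small -/
theorem index_le {q R : ℕ} (hNT : NT G β q R) (hR : 2 ≤ R) (hφ : Function.Surjective φ)
    (ha : ∀ x : α, ∃ γ : Γ, γ • a = x) (hb : ∀ y : β, ∃ g : G, g • b = y)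
    (hkey : ∀ s t : S, φ s • a = φ t • a ↔ (s : G) • b = (t : G) • b)
    (hH : stabilizer G b ≤ S) (hne : ∃ s ∈ S, s • b ≠ b) : S.index ≤ q := by
  classical
  obtain ⟨s₀, hs₀, hs₀b⟩ := hne
  have hinj : Function.Injective (![b, s₀ • b] : Fin 2 → β) := pair_injective (Ne.symm hs₀b)
  have h1 := hNT (Fin 2) (by simpa using hR) _ hinj
  rw [Fintype.card_fin] at h1
  choose t ht using hb
  set B : Set β := Set.range fun s : S => (s : G) • b with hB
  have hBα : Nat.card B ≤ Nat.card α := by
    have hk : ∀ x : B, ∃ s : S, (s : G) • b = x := fun x => by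
      obtain ⟨s, hs⟩ := x.2
      exact ⟨s, hs⟩
    choose s hs using hk
    apply Nat.card_le_card_of_injective (fun x : B => φ (s x) • a)
    intro x y hxy
    have h2 := (hkey _ _).1 hxy
    apply Subtype.ext
    rw [← hs x, ← hs y]
    exact h2
  have h3 : (Set.range fun g : G => fun i => g • (![b, s₀ • b] : Fin 2 → β) i) ⊆
      Set.range (fun z : β × B => (![z.1, t z.1 • (z.2 : β)] : Fin 2 → β)) := by
    rintro _ ⟨g, rfl⟩
    have hk : (t (g • b))⁻¹ * g ∈ S := by
      apply hH
      rw [mem_stabilizer_iff, mul_smul, inv_smul_eq_iff]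
      exact (ht (g • b)).symm
    refine ⟨(g • b, ⟨((t (g • b))⁻¹ * g * s₀) • b,
      ⟨⟨_, S.mul_mem hk hs₀⟩, rfl⟩⟩), ?_⟩
    funext i
    fin_cases i
    · rfl
    · change t (g • b) • (((t (g • b))⁻¹ * g * s₀) • b) = g • (s₀ • b)
      rw [mul_smul, mul_smul, smul_inv_smul]
  have h4 : Nat.card (Set.range fun g : G => fun i => g • (![b, s₀ • b] : Fin 2 → β) i) ≤
      Nat.card β * Nat.card α := by
    calc _ ≤ _ := Nat.card_mono (Set.toFinite _) h3
      _ ≤ Nat.card (β × B) := Finite.card_range_le _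
      _ = Nat.card β * Nat.card B := Nat.card_prod _ _
      _ ≤ _ := Nat.mul_le_mul_left _ hBα
  have hβ : 0 < Nat.card β := Nat.card_pos_iff.2 ⟨⟨b⟩, inferInstance⟩
  have hα : 0 < Nat.card α := Nat.card_pos_iff.2 ⟨⟨a⟩, inferInstance⟩
  have h5 : Nat.card β ≤ q * Nat.card α := by
    apply Nat.le_of_mul_le_mul_left _ hβ
    calc Nat.card β * Nat.card β = Nat.card β ^ 2 := (sq _).symm
      _ ≤ _ := h1
      _ ≤ q * (Nat.card β * Nat.card α) := Nat.mul_le_mul_left _ h4
      _ = _ := by ring
  have h6 := card_sub S φ a b hφ ha (fun y => ⟨t y, ht y⟩) hkey hH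
  rw [h6] at h5
  apply Nat.le_of_mul_le_mul_left _ hα
  calc Nat.card α * S.index ≤ q * Nat.card α := h5
    _ = _ := by ring

/-- the action on the smallest nontrivial block is primitive -/
theorem prim_sub [Nontrivial α] (hφ : Function.Surjective φ) (hHS : stabilizer G b ≤ S)
    (ha : ∀ x : α, ∃ γ : Γ, γ • a = x)
    (hkey : ∀ s t : S, φ s • a = φ t • a ↔ (s : G) • b = (t : G) • b)
    (hmax : ∀ L : Subgroup G, stabilizer G b ≤ L → L ≤ S → L = stabilizer G b ∨ L = S) :
    IsPreprimitive Γ α := by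
  have hH : ∀ s : S, φ s ∈ stabilizer Γ a ↔ (s : G) ∈ stabilizer G b := by
    intro s
    rw [mem_stabilizer_iff, mem_stabilizer_iff]
    have := hkey s 1
    rw [map_one, one_smul] at this
    rw [this]
    simp
  have htr : IsPretransitive Γ α := by
    refine ⟨fun x y => ?_⟩
    obtain ⟨γ, rfl⟩ := ha x
    obtain ⟨δ, rfl⟩ := ha y
    exact ⟨δ * γ⁻¹, by rw [smul_smul]; simp⟩
  rw [← isCoatom_stabilizer_iff_preprimitive Γ a]
  constructor
  · intro htop
    obtain ⟨x, y, hxy⟩ := exists_pair_ne α
    obtain ⟨γ, rfl⟩ := ha x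
    obtain ⟨δ, rfl⟩ := ha y
    have h1 : γ ∈ stabilizer Γ a := htop ▸ Subgroup.mem_top γ
    have h2 : δ ∈ stabilizer Γ a := htop ▸ Subgroup.mem_top δ
    apply hxy
    rw [mem_stabilizer_iff.1 h1, mem_stabilizer_iff.1 h2]
  · intro M hM
    have hle : stabilizer Γ a ≤ M := hM.le
    by_contra hne
    set L : Subgroup G := (M.comap φ).map S.subtype with hL
    have hsub : ∀ s : S, (s : G) ∈ L ↔ φ s ∈ M := by
      intro s
      constructor
      · rintro ⟨t, ht, hts⟩
        have : t = s := Subtype.ext hts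
        rw [← this]
        exact ht
      · intro h
        exact ⟨s, h, rfl⟩
    have h2 : stabilizer G b ≤ L := by
      intro g hg
      exact (hsub ⟨g, hHS hg⟩).2 (hle ((hH ⟨g, hHS hg⟩).2 hg))
    have h3 : L ≤ S := by
      rintro _ ⟨s, _, rfl⟩
      exact s.2
    rcases hmax L h2 h3 with h1 | h1
    · apply hM.not_ge
      intro γ hγ
      obtain ⟨s, rfl⟩ := hφ γ
      rw [hH, ← h1]
      exact (hsub s).2 hγ
    · apply hne
      rw [eq_top_iff]
      intro γ _
      obtain ⟨s, rfl⟩ := hφ γ
      rw [← hsub, h1]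
      exact s.2

end

end Pool.Agent.Lib.MP_7ab245_nt.Solv.AT
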