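import Mathlib
import Pool.Agent.Lib.MP_7ab245_nt.Solv.AT.Sub
import Pool.Agent.Lib.MP_7ab245_nt.Solv.F.Embed

/-! The Galois group of `θ` over a maximal proper subfield of `K(θ)`. -/

set_option autoImplicit false

open MulAction IntermediateField Polynomial Module

namespace Pool.Agent.Lib.MP_7ab245_nt.Solv.AT

section
variable {K E : Type} [Field K] [Field E] [Algebra K E] [FiniteDimensional K E] [IsGalois K E]

/-- the Galois group of `E` over `F` maps onto the Galois group of the minimal polynomial -/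
theorem exists_hom (θ : E) (F : IntermediateField K E) :
    ∃ φ : F.fixingSubgroup →* (minpoly F θ).Gal, Function.Surjective φ ∧
      ∃ a : (minpoly F θ).rootSet (minpoly F θ).SplittingField,
        ∀ s t : F.fixingSubgroup, φ s • a = φ t • a ↔
          ((s : E ≃ₐ[K] E) θ = (t : E ≃ₐ[K] E) θ) := by
  have hint : IsIntegral F θ := Algebra.IsIntegral.isIntegral θ
  have hp0 : minpoly F θ ≠ 0 := minpoly.ne_zero hint
  have hnormal : Normal F E := inferInstance
  have hsplit : ((minpoly F θ).map (algebraMap F E)).Splits := hnormal.splits θ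
  obtain ⟨π, hπ, e, he⟩ := exists_embed_gen (minpoly F θ) E hsplit
  let e2 : F.fixingSubgroup ≃* (E ≃ₐ[F] E) := IntermediateField.fixingSubgroupEquiv F
  have he2 : ∀ (g : F.fixingSubgroup) (x : E), e2 g x = (g : E ≃ₐ[K] E) x := fun g x => rfl
  have hθ : θ ∈ e '' (minpoly F θ).rootSet (minpoly F θ).SplittingField := by
    have h1 := (SplittingField.splits (minpoly F θ)).image_rootSet e
    rw [h1, mem_rootSet]
    exact ⟨hp0, minpoly.aeval F θ⟩
  obtain ⟨a, ha, hae⟩ := hθ
  refine ⟨π.comp e2.toMonoidHom, hπ.comp e2.surjective, ⟨a, ha⟩, fun s t => ?_⟩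
  rw [Subtype.ext_iff]
  change (π (e2 s)) a = (π (e2 t)) a ↔ _
  have hinj : ∀ x y, e x = e y ↔ x = y := fun x y => e.toRingHom.injective.eq_iff
  rw [← hinj, he, he, hae, he2, he2]

theorem stabilizer_eq (θ : E) :
    stabilizer (E ≃ₐ[K] E) θ = (K⟮θ⟯).fixingSubgroup := by
  ext g
  rw [mem_stabilizer_iff, IntermediateField.mem_fixingSubgroup_iff]
  constructor
  · intro hg x hx
    have h2 : K⟮θ⟯ ≤ fixedField (Subgroup.zpowers g) := by
      rw [adjoin_simple_le_iff, mem_fixedField_iff]
      intro f hf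
      obtain ⟨k, rfl⟩ := Subgroup.mem_zpowers_iff.1 hf
      have h3 : g ∈ MulAction.stabilizer (E ≃ₐ[K] E) θ := hg
      exact Subgroup.zpow_mem _ h3 k
    have h4 := h2 hx
    rw [mem_fixedField_iff] at h4
    exact h4 g (Subgroup.mem_zpowers g)
  · intro h
    exact h θ (mem_adjoin_simple_self K θ)

theorem field_part (θ : E) (F : IntermediateField K E) (hF : F ⋖ K⟮θ⟯) {q R : ℕ} (hR : 2 ≤ R)
    (hNT : NT (E ≃ₐ[K] E) (orbit (E ≃ₐ[K] E) θ) q R) :
    finrank K F ≤ q ∧
    NT (minpoly F θ).Gal ((minpoly F θ).rootSet (minpoly F θ).SplittingField) (q * q) R ∧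
    IsPreprimitive (minpoly F θ).Gal ((minpoly F θ).rootSet (minpoly F θ).SplittingField) ∧
    FaithfulSMul (minpoly F θ).Gal ((minpoly F θ).rootSet (minpoly F θ).SplittingField) ∧
    Nat.card (orbit (E ≃ₐ[K] E) θ) =
      Nat.card ((minpoly F θ).rootSet (minpoly F θ).SplittingField) * finrank K F := by
  classical
  have hfin : Finite (orbit (E ≃ₐ[K] E) θ) := Set.finite_range _
  have hint : IsIntegral F θ := Algebra.IsIntegral.isIntegral θ
  have hp0 : minpoly F θ ≠ 0 := minpoly.ne_zero hint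
  have hirr : Irreducible (minpoly F θ) := minpoly.irreducible hint
  obtain ⟨φ, hφ, a, hkey⟩ := exists_hom θ F
  set b : orbit (E ≃ₐ[K] E) θ := ⟨θ, mem_orbit_self θ⟩ with hb
  have hkey' : ∀ s t : F.fixingSubgroup, φ s • a = φ t • a ↔ (s : E ≃ₐ[K] E) • b = (t : E ≃ₐ[K] E) • b := by
    intro s t
    rw [hkey, Subtype.ext_iff]
    rfl
  have ha : ∀ x : (minpoly F θ).rootSet (minpoly F θ).SplittingField, ∃ γ : (minpoly F θ).Gal, γ • a = x := by
    intro x
    have hN : Normal F (minpoly F θ).SplittingField := SplittingField.instNormal (minpoly F θ)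
    have hax : aeval (a : (minpoly F θ).SplittingField) (minpoly F θ) = 0 := (mem_rootSet.1 a.2).2
    have hxx : aeval (x : (minpoly F θ).SplittingField) (minpoly F θ) = 0 := (mem_rootSet.1 x.2).2
    have hinta : IsIntegral F (a : (minpoly F θ).SplittingField) := Algebra.IsIntegral.isIntegral _
    have h1 : aeval (x : (minpoly F θ).SplittingField) (minpoly F (a : (minpoly F θ).SplittingField)) = 0 := by
      have h2 := minpoly.eq_of_irreducible hirr hax
      rw [← h2, map_mul, hxx, zero_mul]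
    obtain ⟨τ, hτ⟩ := minpoly.exists_algEquiv_of_root' (K := F) (L := (minpoly F θ).SplittingField)
      hinta.isAlgebraic h1
    exact ⟨τ, Subtype.ext hτ⟩
  have hbt : ∀ y : orbit (E ≃ₐ[K] E) θ, ∃ g : E ≃ₐ[K] E, g • b = y := by
    rintro ⟨_, g, rfl⟩
    exact ⟨g, rfl⟩
  have hstb : stabilizer (E ≃ₐ[K] E) b = (K⟮θ⟯).fixingSubgroup := by
    rw [← stabilizer_eq θ]
    ext g
    rw [mem_stabilizer_iff, mem_stabilizer_iff, Subtype.ext_iff]
    rfl
  have hHS : stabilizer (E ≃ₐ[K] E) b ≤ F.fixingSubgroup := by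
    rw [hstb]
    exact IntermediateField.fixingSubgroup_antitone hF.le
  have hidx : F.fixingSubgroup.index = finrank K F := by
    have h4 : Nat.card F.fixingSubgroup = Module.finrank F E :=
      IsGalois.card_fixingSubgroup_eq_finrank F
    have h5 : Module.finrank K F * Module.finrank F E = Module.finrank K E :=
      Module.finrank_mul_finrank K F E
    have h6 : Nat.card (E ≃ₐ[K] E) = Module.finrank K E := IsGalois.card_aut_eq_finrank K E
    have h7 := F.fixingSubgroup.card_mul_index
    have h8 : 0 < Nat.card F.fixingSubgroup := Nat.card_pos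
    rw [h6, ← h5, mul_comm, ← h4] at h7
    exact Nat.eq_of_mul_eq_mul_right h8 h7
  have hne : ∃ s ∈ F.fixingSubgroup, s • b ≠ b := by
    by_contra hcon
    push Not at hcon
    apply hF.lt.not_ge
    rw [adjoin_simple_le_iff, ← IsGalois.fixedField_fixingSubgroup F, mem_fixedField_iff]
    intro f hf
    have := hcon f hf
    rw [Subtype.ext_iff] at this
    exact this
  have hcard := card_sub F.fixingSubgroup φ a b hφ ha hbt hkey' hHS
  have hmax : ∀ L : Subgroup (E ≃ₐ[K] E), stabilizer (E ≃ₐ[K] E) b ≤ L → L ≤ F.fixingSubgroup →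
      L = stabilizer (E ≃ₐ[K] E) b ∨ L = F.fixingSubgroup := by
    intro L h1 h2
    have h3 : F ≤ fixedField L := by
      rw [← IsGalois.fixedField_fixingSubgroup F]
      exact fixedField_antitone h2
    have h4 : fixedField L ≤ K⟮θ⟯ := by
      rw [← IsGalois.fixedField_fixingSubgroup K⟮θ⟯, ← hstb]
      exact fixedField_antitone h1
    rcases hF.eq_or_eq h3 h4 with h5 | h5
    · right
      rw [← h5, fixingSubgroup_fixedField]
    · left
      rw [hstb, ← h5, fixingSubgroup_fixedField]
  have hnt : Nontrivial ((minpoly F θ).rootSet (minpoly F θ).SplittingField) := by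
    obtain ⟨s, hs, hsb⟩ := hne
    refine ⟨φ ⟨s, hs⟩ • a, a, ?_⟩
    intro h
    apply hsb
    have h1 := (hkey' ⟨s, hs⟩ 1).1 (by rw [map_one, one_smul]; exact h)
    rw [h1]
    exact one_smul _ _
  refine ⟨?_, ?_, ?_, ?_, ?_⟩
  · rw [← hidx]
    exact index_le F.fixingSubgroup φ a b hNT hR hφ ha hbt hkey' hHS hne
  · have hle : Nat.card ((minpoly F θ).rootSet (minpoly F θ).SplittingField) ≤ Nat.card (orbit (E ≃ₐ[K] E) θ) := by
      rw [hcard]
      exact Nat.le_mul_of_pos_right _ (Nat.pos_of_ne_zero F.fixingSubgroup.index_ne_zero_of_finite)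
    have h1 := NT_sub F.fixingSubgroup φ a b hNT hφ ha hkey' hle
    have h2 : F.fixingSubgroup.index ≤ q := index_le F.fixingSubgroup φ a b hNT hR hφ ha hbt hkey' hHS hne
    intro ι _ hι x hx
    exact (h1 ι hι x hx).trans (Nat.mul_le_mul_right _ (Nat.mul_le_mul_left _ h2))
  · exact prim_sub F.fixingSubgroup φ a b hφ hHS ha hkey' hmax
  · constructor
    intro γ δ h
    apply Polynomial.Gal.ext
    intro x hx
    have := h ⟨x, hx⟩
    exact congrArg Subtype.val this
  · rw [hcard, hidx]

end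

end Pool.Agent.Lib.MP_7ab245_nt.Solv.AT
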