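import Mathlib
import Pool.Agent.Lib.MP_7ab245_nt.Solv.AT.Field

/-! Almost transitive Galois groups: degrees of fields generated by several conjugates, and the
alternating group over a maximal proper subfield. -/

set_option autoImplicit false

open MulAction IntermediateField Polynomial Module

namespace Pool.Agent.Lib.MP_7ab245_nt.Solv.AT

section
variable {K E : Type} [Field K] [Field E] [Algebra K E] [FiniteDimensional K E] [IsGalois K E]

theorem card_range_finrank {r : ℕ} (x : Fin r → E) :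
    Nat.card (Set.range fun (s : E ≃ₐ[K] E) => fun i => s (x i)) =
      Module.finrank K (IntermediateField.adjoin K (Set.range x)) := by
  rw [IntermediateField.finrank_eq_fixingSubgroup_index]
  have h1 : (IntermediateField.adjoin K (Set.range x)).fixingSubgroup =
      MulAction.stabilizer (E ≃ₐ[K] E) x := by
    ext s
    rw [IntermediateField.mem_fixingSubgroup_iff, MulAction.mem_stabilizer_iff]
    constructor
    · intro h
      funext i
      exact h (x i) (IntermediateField.subset_adjoin K _ (Set.mem_range_self i))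
    · intro h
      have h2 : IntermediateField.adjoin K (Set.range x) ≤
          IntermediateField.fixedField (Subgroup.zpowers s) := by
        rw [IntermediateField.adjoin_le_iff]
        rintro _ ⟨i, rfl⟩
        rw [SetLike.mem_coe, IntermediateField.mem_fixedField_iff]
        have h3 : s (x i) = x i := congrFun h i
        have h4 : s ∈ MulAction.stabilizer (E ≃ₐ[K] E) (x i) := h3
        intro t ht
        exact (Subgroup.zpowers_le.2 h4) ht
      intro y hy
      exact (IntermediateField.mem_fixedField_iff _ y).1 (h2 hy) s (Subgroup.mem_zpowers s)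
  rw [h1, MulAction.index_stabilizer]
  rfl

/-- fields generated by several conjugates -/
theorem tuples {m κ q R : ℕ} (θ : E) (hm : Nat.card (orbit (E ≃ₐ[K] E) θ) = m) (hR : κ ≤ R)
    (hNT : NT (E ≃ₐ[K] E) (orbit (E ≃ₐ[K] E) θ) q R) (hq : q ^ κ < m) (r : ℕ) (hr : 1 ≤ r)
    (hrκ : r ≤ κ) (x : Fin r → E) (hx : ∀ i, ∃ s : E ≃ₐ[K] E, s θ = x i)
    (hinj : Function.Injective x) :
    m ^ (r * κ - 1) < finrank K (IntermediateField.adjoin K (Set.range x)) ^ κ := by
  have h1 := hNT (Fin r) (by simpa using hrκ.trans hR)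
    (fun i => (⟨x i, hx i⟩ : orbit (E ≃ₐ[K] E) θ)) (by
      intro i j hij
      exact hinj (congrArg Subtype.val hij))
  rw [Fintype.card_fin, hm] at h1
  have h2 : Nat.card (Set.range fun g : E ≃ₐ[K] E => fun i =>
      g • (⟨x i, hx i⟩ : orbit (E ≃ₐ[K] E) θ)) =
      finrank K (IntermediateField.adjoin K (Set.range x)) := by
    rw [← card_range_finrank]
    have e : (Set.range fun g : E ≃ₐ[K] E => fun i => g (x i)) =
        (fun z : Fin r → orbit (E ≃ₐ[K] E) θ => fun i => (z i : E)) ''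
          (Set.range fun g : E ≃ₐ[K] E => fun i => g • (⟨x i, hx i⟩ : orbit (E ≃ₐ[K] E) θ)) := by
      ext y
      constructor
      · rintro ⟨g, rfl⟩
        exact ⟨_, ⟨g, rfl⟩, rfl⟩
      · rintro ⟨_, ⟨g, rfl⟩, rfl⟩
        exact ⟨g, rfl⟩
    rw [e]
    refine (Nat.card_image_of_injective ?_ _).symm
    intro z z' hz
    funext i
    exact Subtype.ext (congrFun hz i)
  rw [h2] at h1
  set T := finrank K (IntermediateField.adjoin K (Set.range x)) with hT
  have hTpos : 0 < T := Module.finrank_pos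
  have h3 : m ^ (r * κ) ≤ q ^ κ * T ^ κ := by
    rw [pow_mul, ← mul_pow]
    exact Nat.pow_le_pow_left h1 κ
  have h4 : q ^ κ * T ^ κ < m * T ^ κ := Nat.mul_lt_mul_of_pos_right hq (Nat.pow_pos hTpos)
  have h5 : m ^ (r * κ) = m * m ^ (r * κ - 1) := by
    rw [← pow_succ']
    congr 1
    have : 1 ≤ r * κ := Nat.mul_pos hr (hr.trans hrκ)
    omega
  have h6 : m * m ^ (r * κ - 1) < m * T ^ κ := by
    rw [← h5]
    exact h3.trans_lt h4
  exact Nat.lt_of_mul_lt_mul_left h6

/-- the Galois group over a maximal proper subfield -/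
theorem alt_or_large {m κ q : ℕ} (θ : E) (hm : Nat.card (orbit (E ≃ₐ[K] E) θ) = m)
    (hNT : NT (E ≃ₐ[K] E) (orbit (E ≃ₐ[K] E) θ) q (2 * κ + 2)) (hq1 : 1 ≤ q)
    (hbig : (9 * κ ^ 2 + 1) * q ^ (κ + 4) < m) (F : IntermediateField K E) (hF : F ⋖ K⟮θ⟯) :
    finrank K F ^ κ ≤ m ∧
      ((∀ σ ∈ @alternatingGroup ((minpoly F θ).rootSet (minpoly F θ).SplittingField)
          (rootSetFintype _ _) (Classical.decEq _),
        ∃ γ : (minpoly F θ).Gal, ∀ x, γ • x = σ x) ∨
      ∀ γ : (minpoly F θ).Gal, γ ≠ 1 → m ^ κ < (Subgroup.centralizer {γ}).index) := by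
  classical
  obtain ⟨h1, h2, h3, h4, h5⟩ := field_part θ F hF (by omega) hNT
  rw [hm] at h5
  set α := (minpoly F θ).rootSet (minpoly F θ).SplittingField with hα
  have hq4 : q ^ κ ≤ q ^ (κ + 4) := Nat.pow_le_pow_right hq1 (by omega)
  have hq5 : q ^ (κ + 4) ≤ (9 * κ ^ 2 + 1) * q ^ (κ + 4) := Nat.le_mul_of_pos_left _ (by positivity)
  have hmpos : 0 < m := by
    have : 0 < q ^ (κ + 4) := Nat.pow_pos hq1
    omega
  have hαpos : 0 < Nat.card α := by
    rcases Nat.eq_zero_or_pos (Nat.card α) with h0 | h0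
    · rw [h0, zero_mul] at h5; omega
    · exact h0
  have hmα : m ≤ q * Nat.card α := by
    rw [h5, mul_comm]
    exact Nat.mul_le_mul_right _ h1
  refine ⟨(Nat.pow_le_pow_left h1 κ).trans (hq4.trans (hq5.trans hbig.le)), ?_⟩
  by_cases hcl : ∀ γ : (minpoly F θ).Gal, γ ≠ 1 → m ^ κ < (Subgroup.centralizer {γ}).index
  · exact Or.inr hcl
  · left
    push Not at hcl
    obtain ⟨γ, hγ, hγc⟩ := hcl
    rw [← cls_eq] at hγc
    have hfin : Finite (minpoly F θ).Gal := inferInstance
    -- size estimates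
    have hb1 : q * q * cls γ < Nat.card α ^ (κ + 1) := by
      have h6 : q ^ (κ + 1) * (q * q * cls γ) < q ^ (κ + 1) * Nat.card α ^ (κ + 1) := by
        calc q ^ (κ + 1) * (q * q * cls γ) = q ^ (κ + 3) * cls γ := by ring
          _ ≤ q ^ (κ + 3) * m ^ κ := Nat.mul_le_mul_left _ hγc
          _ < m * m ^ κ := by
              apply Nat.mul_lt_mul_of_pos_right _ (Nat.pow_pos hmpos)
              exact ((Nat.pow_le_pow_right hq1 (by omega)).trans hq5).trans_lt hbig
          _ = m ^ (κ + 1) := (pow_succ' m κ).symm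
          _ ≤ (q * Nat.card α) ^ (κ + 1) := Nat.pow_le_pow_left hmα _
          _ = _ := mul_pow _ _ _
      exact Nat.lt_of_mul_lt_mul_left h6
    have hb2 : q * q * (3 * κ) ^ 2 < Nat.card α := by
      have h6 : q * (q * q * (3 * κ) ^ 2) < q * Nat.card α := by
        calc q * (q * q * (3 * κ) ^ 2) = (9 * κ ^ 2) * q ^ 3 := by ring
          _ ≤ (9 * κ ^ 2 + 1) * q ^ (κ + 4) :=
            Nat.mul_le_mul (Nat.le_succ _) (Nat.pow_le_pow_right hq1 (by omega))
          _ < m := hbig
          _ ≤ _ := hmα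
      exact Nat.lt_of_mul_lt_mul_left h6
    have h7 := @alternating_le (minpoly F θ).Gal α _ _ _ _ h4 (Classical.decEq _)
      (rootSetFintype _ _) h3 (q * q) κ h2 γ hγ hb1 hb2
    intro σ hσ
    obtain ⟨δ, hδ⟩ := h7 hσ
    exact ⟨δ, fun x => by rw [← hδ]; rfl⟩

end

end Pool.Agent.Lib.MP_7ab245_nt.Solv.AT
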