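import Mathlib
import Pool.Agent.Lib.MP_7ab245_nt.Solv.AT.Perm
import Pool.Agent.Lib.MP_7ab245_nt.Solv.SX.ASDefs

/-! Almost transitivity on the lines of the orbit of a vector. -/

set_option autoImplicit false

open MulAction

namespace Pool.Agent.Lib.MP_7ab245_nt.Solv.AT

open SX

/-- tuples of vectors of the orbit on pairwise different lines have large orbits -/
def HL {G W : Type} [Group G] [AddCommGroup W] [Module ℚ W] (ρ : Representation ℚ G W) (w : W)
    (R D : ℕ) : Prop :=
  ∀ r : ℕ, 1 ≤ r → r ≤ R → ∀ u : Fin r → G, (∀ i j, i ≠ j → ¬ SameL ρ w (u i) (u j)) →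
    osz ρ w ^ (r * D - 1) < tsz ρ w u ^ D

theorem NT_of_HL {G W Γ β : Type} [Group G] [Finite G] [AddCommGroup W] [Module ℚ W] [Group Γ]
    [MulAction Γ β] [Finite β] (ρ : Representation ℚ G W) (w : W) (π : G →* Γ)
    (hπ : Function.Surjective π) (b : β) (hb : ∀ y : β, ∃ γ : Γ, γ • b = y)
    (hkey : ∀ s t : G, π s • b = π t • b ↔ SameL ρ w s t) {R D q : ℕ} (hD : 1 ≤ D)
    (hHL : HL ρ w R D) (hq : osz ρ w ≤ q ^ D) (h2 : 2 * Nat.card β ≤ osz ρ w) :
    NT Γ β q R := by
  classical
  have hosz : 1 ≤ osz ρ w := by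
    have : Nonempty (Set.range fun x : G => ρ x w) := ⟨⟨_, ⟨1, rfl⟩⟩⟩
    have : Finite (Set.range fun x : G => ρ x w) := Set.finite_range _
    exact Nat.card_pos
  have hq1 : 1 ≤ q := by
    by_contra hcon
    have h0 : q = 0 := by omega
    rw [h0, zero_pow (by omega)] at hq
    omega
  have hΓ : Finite Γ := Finite.of_surjective _ hπ
  intro ι _ hι x hx
  have hfin : Finite (Set.range fun g : Γ => fun i => g • x i) := Set.finite_range _
  have hne : Nonempty (Set.range fun g : Γ => fun i => g • x i) := ⟨⟨_, ⟨1, rfl⟩⟩⟩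
  have hpos : 0 < Nat.card (Set.range fun g : Γ => fun i => g • x i) := Nat.card_pos
  obtain ⟨r, hr⟩ : ∃ r, Fintype.card ι = r := ⟨_, rfl⟩
  rw [hr] at hι ⊢
  rcases Nat.eq_zero_or_pos r with h0 | h0
  · rw [h0, pow_zero]
    exact Nat.mul_pos hq1 hpos
  -- group elements giving the points
  have hex : ∀ i, ∃ s : G, π s • b = x i := by
    intro i
    obtain ⟨γ, hγ⟩ := hb (x i)
    obtain ⟨s, rfl⟩ := hπ γ
    exact ⟨s, hγ⟩
  choose s hs using hex
  have e : ι ≃ Fin r := Fintype.equivFinOfCardEq hr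
  have hns : ∀ i j : Fin r, i ≠ j → ¬ SameL ρ w (s (e.symm i)) (s (e.symm j)) := by
    intro i j hij hsame
    apply hij
    rw [← hkey, hs, hs] at hsame
    exact e.symm.injective (hx hsame)
  have h1 := hHL r h0 hι (fun i => s (e.symm i)) hns
  set N := osz ρ w with hN
  -- the number of tuples of vectors
  have hT : tsz ρ w (fun i => s (e.symm i)) ≤
      2 ^ r * Nat.card (Set.range fun g : Γ => fun i => g • x i) := by
    set A := Set.range fun g : Γ => fun i => g • x i with hA
    have hrep : ∀ z : A, ∃ t : G, ∀ i, π t • x i = (z : ι → β) i := by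
      rintro ⟨_, γ, rfl⟩
      obtain ⟨t, rfl⟩ := hπ γ
      exact ⟨t, fun i => rfl⟩
    choose t ht using hrep
    have hsub : (Set.range fun y : G => fun i : Fin r => ρ (y * s (e.symm i)) w) ⊆
        Set.range (fun z : (Fin r → Bool) × A => fun i : Fin r =>
          if z.1 i then ρ (t z.2 * s (e.symm i)) w else -ρ (t z.2 * s (e.symm i)) w) := by
      rintro _ ⟨y, rfl⟩
      have hyA : (fun i => π y • x i) ∈ A := ⟨π y, rfl⟩
      have hsame : ∀ i : Fin r, SameL ρ w (y * s (e.symm i)) (t ⟨_, hyA⟩ * s (e.symm i)) := by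
        intro i
        rw [← hkey, map_mul, map_mul, mul_smul, mul_smul, hs]
        exact (ht ⟨_, hyA⟩ (e.symm i)).symm
      refine ⟨(fun i => decide (ρ (y * s (e.symm i)) w = ρ (t ⟨_, hyA⟩ * s (e.symm i)) w),
        ⟨_, hyA⟩), ?_⟩
      funext i
      by_cases h3 : ρ (y * s (e.symm i)) w = ρ (t ⟨_, hyA⟩ * s (e.symm i)) w
      · simp only [h3, decide_true, if_true]
      · have h4 : ρ (y * s (e.symm i)) w = -ρ (t ⟨_, hyA⟩ * s (e.symm i)) w :=
          (hsame i).resolve_left h3
        simp only [h3, decide_false, Bool.false_eq_true, if_false]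
        exact h4.symm
    calc tsz ρ w (fun i => s (e.symm i)) ≤ _ := Nat.card_mono (Set.toFinite _) hsub
      _ ≤ Nat.card ((Fin r → Bool) × A) := Finite.card_range_le _
      _ = 2 ^ r * Nat.card A := by
        rw [Nat.card_prod, Nat.card_fun, Nat.card_fin]
        simp
  set T := tsz ρ w (fun i => s (e.symm i)) with hTdef
  have h3 : N ^ r < q * T := by
    by_contra hcon
    push Not at hcon
    have h4 : (q * T) ^ D ≤ (N ^ r) ^ D := Nat.pow_le_pow_left hcon _
    rw [mul_pow] at h4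
    have h5 : (N ^ r) ^ D = N * N ^ (r * D - 1) := by
      rw [← pow_mul, ← pow_succ']
      congr 1
      have : 1 ≤ r * D := Nat.mul_pos h0 hD
      omega
    rw [h5] at h4
    have h6 : N * N ^ (r * D - 1) < N * T ^ D := Nat.mul_lt_mul_of_pos_left h1 hosz
    have h7 : N * T ^ D ≤ q ^ D * T ^ D := Nat.mul_le_mul_right _ hq
    omega
  have h8 : 2 ^ r * Nat.card β ^ r ≤ 2 ^ r * (q * Nat.card (Set.range fun g : Γ => fun i => g • x i)) := by
    calc 2 ^ r * Nat.card β ^ r = (2 * Nat.card β) ^ r := (mul_pow _ _ _).symm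
      _ ≤ N ^ r := Nat.pow_le_pow_left h2 _
      _ ≤ q * T := h3.le
      _ ≤ q * (2 ^ r * Nat.card (Set.range fun g : Γ => fun i => g • x i)) :=
        Nat.mul_le_mul_left _ hT
      _ = _ := by ring
  exact Nat.le_of_mul_le_mul_left h8 (by positivity)

end Pool.Agent.Lib.MP_7ab245_nt.Solv.AT
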