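import Mathlib
import Pool.Agent.Lib.MP_7ab245_nt.Solv.AT.Lines
import Pool.Agent.Lib.MP_7ab245_nt.Solv.RR.HypL

/-! Tuples of vectors on different lines have large orbits. -/

set_option autoImplicit false

namespace Pool.Agent.Lib.MP_7ab245_nt.Solv.AT

open SX

theorem hypL (R D : ℕ) (hD : 1 ≤ D) : ∃ R₁ D₁ n₀ : ℕ, 1 ≤ D₁ ∧ ∀ {G W : Type} [Group G] [Finite G]
    [AddCommGroup W] [Module ℚ W] (ρ : Representation ℚ G W) (w : W), n₀ ≤ osz ρ w →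
    HypB ρ w R₁ D₁ → HL ρ w R D := by
  obtain ⟨R₁, D₁, n₀, hD₁, h⟩ := RR.hypL R D hD
  exact ⟨R₁, D₁, n₀, hD₁, fun ρ w hn hB r hr1 hr u hu => (h ρ w hn hB r hr1 hr u hu).2⟩

end Pool.Agent.Lib.MP_7ab245_nt.Solv.AT
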