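import Mathlib

/-! A root of a large number. -/

set_option autoImplicit false

namespace Pool.Agent.Lib.MP_7ab245_nt.Solv.AT

/-- for `N` large some `q` has `N ≤ q ^ (2 k)` and `C * q ^ k < N` -/
theorem exists_root (k C : ℕ) (hk : 1 ≤ k) : ∃ n₀ : ℕ, ∀ N : ℕ, n₀ ≤ N →
    ∃ q : ℕ, 1 ≤ q ∧ N ≤ q ^ (2 * k) ∧ C * q ^ k < N := by
  classical
  refine ⟨4 ^ k * (C + 1) ^ 2 + 2, fun N hN => ?_⟩
  have hex : ∃ q : ℕ, N ≤ q ^ (2 * k) := ⟨N, by
    calc N = N ^ 1 := (pow_one N).symm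
      _ ≤ N ^ (2 * k) := Nat.pow_le_pow_right (by omega) (by omega)⟩
  set q := Nat.find hex with hq
  have hq1 : N ≤ q ^ (2 * k) := Nat.find_spec hex
  have hqpos : 1 ≤ q := by
    by_contra hcon
    have h0 : q = 0 := by omega
    rw [h0, zero_pow (by omega)] at hq1
    omega
  have hq2 : 2 ≤ q := by
    by_contra hcon
    have h0 : q = 1 := by omega
    rw [h0, one_pow] at hq1
    omega
  have hq3 : (q - 1) ^ (2 * k) < N := by
    have := Nat.find_min hex (show q - 1 < q by omega)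
    omega
  refine ⟨q, hqpos, hq1, ?_⟩
  have h1 : q ^ (2 * k) ≤ 4 ^ k * (q - 1) ^ (2 * k) := by
    calc q ^ (2 * k) ≤ (2 * (q - 1)) ^ (2 * k) := Nat.pow_le_pow_left (by omega) _
      _ = 4 ^ k * (q - 1) ^ (2 * k) := by
          rw [mul_pow, pow_mul]
          norm_num
  have h2 : q ^ (2 * k) < 4 ^ k * N :=
    h1.trans_lt (Nat.mul_lt_mul_of_pos_left hq3 (by positivity))
  by_contra hcon
  push Not at hcon
  have h3 : N * N ≤ (C * q ^ k) * (C * q ^ k) := Nat.mul_le_mul hcon hcon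
  have h4 : (C * q ^ k) * (C * q ^ k) = C ^ 2 * q ^ (2 * k) := by ring
  have h5 : C ^ 2 * q ^ (2 * k) ≤ C ^ 2 * (4 ^ k * N) := Nat.mul_le_mul_left _ h2.le
  have h6 : N * N ≤ (C ^ 2 * 4 ^ k) * N := by
    calc N * N ≤ _ := h3
      _ = _ := h4
      _ ≤ _ := h5
      _ = _ := by ring
  have h7 : N ≤ C ^ 2 * 4 ^ k := Nat.le_of_mul_le_mul_right h6 (by omega)
  have h8 : C ^ 2 * 4 ^ k ≤ 4 ^ k * (C + 1) ^ 2 := by
    rw [mul_comm]
    exact Nat.mul_le_mul_left _ (Nat.pow_le_pow_left (by omega) 2)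
  omega

end Pool.Agent.Lib.MP_7ab245_nt.Solv.AT
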