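import Mathlib
import Pool.Agent.Lib.MP_7ab245_nt.Solv.AT.Gen
import Pool.Agent.Lib.MP_7ab245_nt.Solv.AT.HypL
import Pool.Agent.Lib.MP_7ab245_nt.Solv.AT.Num
import Pool.Agent.Lib.MP_7ab245_nt.Solv.F.FinalU

/-! The reduction of Lehmer's problem to alternating groups. -/

set_option autoImplicit false

open Polynomial MulAction IntermediateField Module

namespace Pool.Agent.Lib.MP_7ab245_nt.Solv.AT

/-- any `r ≤ κ` different roots of `p` generate a field of degree `> n ^ (r - 1 / κ)` -/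
def Tup {K : Type} [Field K] (p : K[X]) (n κ : ℕ) : Prop :=
  ∀ r : ℕ, 1 ≤ r → r ≤ κ → ∀ x : Fin r → p.SplittingField, (∀ i, aeval (x i) p = 0) →
    Function.Injective x →
    n ^ (r * κ - 1) < finrank K (IntermediateField.adjoin K (Set.range x)) ^ κ

/-- the Galois group of `p` contains all even permutations of the roots of `p` -/
def HasAlt {K : Type} [Field K] (p : K[X]) : Prop :=
  ∀ σ ∈ @alternatingGroup (p.rootSet p.SplittingField) (rootSetFintype _ _) (Classical.decEq _),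
    ∃ γ : p.Gal, ∀ x, γ • x = σ x

/-- for all maximal proper subfields `F` of `K(θ)`: `[F : K] ^ κ ≤ n`, and the Galois group of `θ`
over `F` contains the alternating group or has only classes with more than `n ^ κ` elements -/
def AltAt {K E : Type} [Field K] [Field E] [Algebra K E] (θ : E) (n κ : ℕ) : Prop :=
  ∀ F : IntermediateField K E, F ⋖ K⟮θ⟯ → finrank K F ^ κ ≤ n ∧
    (HasAlt (minpoly F θ) ∨
      ∀ γ : (minpoly F θ).Gal, γ ≠ 1 → n ^ κ < (Subgroup.centralizer {γ}).index)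

theorem final_gen {K : Type} [Field K] [CharZero K] (p : K[X]) (hp : Irreducible p)
    (θ₀ : p.SplittingField) (hθ₀ : aeval θ₀ p = 0) (n κ : ℕ) (hdeg : p.natDegree = n)
    {G W : Type} [Group G] [Finite G] [AddCommGroup W] [Module ℚ W]
    (ρ : Representation ℚ G W) (w : W) (φ : G →* p.Gal) (hφ : Function.Surjective φ)
    (hkey : ∀ s t, (φ s) θ₀ = (φ t) θ₀ ↔ (ρ s w = ρ t w ∨ ρ s w = -ρ t w))
    (hn : SX.osz ρ w = 2 * n) {D q : ℕ} (hD : 1 ≤ D) (hHL : HL ρ w (2 * κ + 2) D)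
    (hq1 : 1 ≤ q) (hq : SX.osz ρ w ≤ q ^ D) (hbig : (9 * κ ^ 2 + 1) * q ^ (κ + 4) < n) :
    Tup p n κ ∧ ∀ θ : p.SplittingField, aeval θ p = 0 → AltAt (K := K) θ n κ := by
  have hN : Normal K p.SplittingField := SplittingField.instNormal p
  have hG : IsGalois K p.SplittingField := ⟨⟩
  have hconj : ∀ θ θ' : p.SplittingField, aeval θ p = 0 → aeval θ' p = 0 →
      ∃ s : p.SplittingField ≃ₐ[K] p.SplittingField, s θ = θ' := by
    intro θ θ' hθ hθ'
    have hint : IsIntegral K θ := Algebra.IsIntegral.isIntegral θ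
    have h1 : aeval θ' (minpoly K θ) = 0 := by
      have h2 := minpoly.eq_of_irreducible hp hθ
      rw [← h2, map_mul, hθ', zero_mul]
    exact minpoly.exists_algEquiv_of_root' (K := K) (L := p.SplittingField) hint.isAlgebraic h1
  have hcard : ∀ θ : p.SplittingField, aeval θ p = 0 →
      Nat.card (orbit (p.SplittingField ≃ₐ[K] p.SplittingField) θ) = n := by
    intro θ hθ
    have h1 := card_range_finrank (K := K) (fun _ : Fin 1 => θ)
    have h2 : (Set.range fun _ : Fin 1 => θ) = {θ} := by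
      ext y
      simp [eq_comm]
    rw [h2, adjoin.finrank (Algebra.IsIntegral.isIntegral θ)] at h1
    have h3 : (minpoly K θ).natDegree = n := by
      rw [← hdeg, ← minpoly.eq_of_irreducible hp hθ]
      rw [natDegree_mul_C (by simpa using hp.ne_zero)]
    rw [← h3, ← h1]
    have e : (Set.range fun g : p.SplittingField ≃ₐ[K] p.SplittingField => fun _ : Fin 1 => g θ) =
        (fun z : p.SplittingField => fun _ : Fin 1 => z) ''
          (orbit (p.SplittingField ≃ₐ[K] p.SplittingField) θ) := by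
      ext y
      constructor
      · rintro ⟨g, rfl⟩
        exact ⟨_, ⟨g, rfl⟩, rfl⟩
      · rintro ⟨_, ⟨g, rfl⟩, rfl⟩
        exact ⟨g, rfl⟩
    rw [e]
    refine (Nat.card_image_of_injective ?_ _).symm
    intro z z' hz
    exact congrFun hz 0
  have hfin : ∀ θ : p.SplittingField,
      Finite (orbit (p.SplittingField ≃ₐ[K] p.SplittingField) θ) := fun θ => Set.finite_range _
  have hNT : ∀ θ : p.SplittingField, aeval θ p = 0 →
      NT (p.SplittingField ≃ₐ[K] p.SplittingField)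
        (orbit (p.SplittingField ≃ₐ[K] p.SplittingField) θ) q (2 * κ + 2) := by
    intro θ hθ
    obtain ⟨s₀, hs₀⟩ := hconj θ θ₀ hθ hθ₀
    have hb : ∀ y : orbit (p.SplittingField ≃ₐ[K] p.SplittingField) θ,
        ∃ γ : p.SplittingField ≃ₐ[K] p.SplittingField,
          γ • (⟨θ₀, ⟨s₀, hs₀⟩⟩ : orbit (p.SplittingField ≃ₐ[K] p.SplittingField) θ) = y := by
      rintro ⟨_, g, rfl⟩
      refine ⟨g * s₀⁻¹, Subtype.ext ?_⟩
      change (g * s₀⁻¹) θ₀ = g θ
      rw [← hs₀, AlgEquiv.mul_apply]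
      congr 1
      exact s₀.symm_apply_apply θ
    refine NT_of_HL (Γ := p.SplittingField ≃ₐ[K] p.SplittingField)
      (β := ↥(orbit (p.SplittingField ≃ₐ[K] p.SplittingField) θ)) ρ w φ hφ
      ⟨θ₀, ⟨s₀, hs₀⟩⟩ hb ?_ hD hHL hq ?_
    · intro s t
      rw [Subtype.ext_iff]
      exact hkey s t
    · rw [hcard θ hθ, hn]
  refine ⟨?_, ?_⟩
  · intro r hr hrκ x hx hinj
    have hqκ : q ^ κ < n := by
      calc q ^ κ ≤ q ^ (κ + 4) := Nat.pow_le_pow_right hq1 (by omega)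
        _ ≤ (9 * κ ^ 2 + 1) * q ^ (κ + 4) := Nat.le_mul_of_pos_left _ (by positivity)
        _ < n := hbig
    exact tuples (K := K) (R := 2 * κ + 2) θ₀ (hcard θ₀ hθ₀) (by omega) (hNT θ₀ hθ₀) hqκ r hr hrκ x
      (fun i => hconj θ₀ (x i) hθ₀ (hx i)) hinj
  · intro θ hθ F hF
    exact alt_or_large (K := K) θ (hcard θ hθ) (hNT θ hθ) hq1 hbig F hF

theorem exists_root_split {K : Type} [Field K] (p : K[X]) (hp : p.degree ≠ 0) :
    ∃ θ : p.SplittingField, aeval θ p = 0 := by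
  obtain ⟨θ, hθ⟩ := (SplittingField.splits p).exists_eval_eq_zero (by rwa [degree_map])
  refine ⟨θ, ?_⟩
  rw [aeval_def, ← eval_map]
  exact hθ

theorem coreP (κ : ℕ) : ∃ n₀ : ℕ, ∀ (Ω : Type) [Field Ω] [NumberField Ω] [IsGalois ℚ Ω] (B : ℝ)
    (g h : ℤ[X]), MinPoly Ω B g → B < 2 → n₀ ≤ g.natDegree → g ∣ g.reverse → h.Monic →
    Irreducible h → recip h = g → (h.map (algebraMap ℤ Ω)).Splits →
    (∀ y : Ω, aeval y h = 0 → ∃ x : Ω, aeval x g = 0 ∧ y = x + x⁻¹) →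
    Tup (rat h) h.natDegree κ ∧
      ∀ θ : (rat h).SplittingField, aeval θ (rat h) = 0 → AltAt (K := ℚ) θ h.natDegree κ := by
  obtain ⟨R, D, n₁, hD, hL⟩ := hypL (2 * κ + 2) (2 * (κ + 4)) (by omega)
  obtain ⟨n₃, hroot⟩ := exists_root (κ + 4) (2 * (9 * κ ^ 2 + 1)) (by omega)
  have hB : ∀ r : ℕ, ∃ n : ℕ, 1 ≤ r → ∀ (Ω : Type) [Field Ω] [NumberField Ω]
    [IsGalois ℚ Ω] (ι : Ω →+* ℂ) (B : ℝ) (g : ℤ[X]), MinPoly Ω B g → B < 2 → n ≤ g.natDegree →
    ∀ (x : Ω), aeval x g = 0 → ∀ t : Fin r → (Ω ≃ₐ[ℚ] Ω),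
    LinearIndependent ℚ (fun i => rep (Ω ≃ₐ[ℚ] Ω) (t i) (lg ι x)) →
    g.natDegree ^ (r * D - 1) < Nat.card (Set.range fun s : Ω ≃ₐ[ℚ] Ω => fun i =>
      rep (Ω ≃ₐ[ℚ] Ω) (s * t i) (lg ι x)) ^ D := by
    intro r
    by_cases hr : 1 ≤ r
    · obtain ⟨n, hn⟩ := groupBD r D hr hD
      exact ⟨n, fun _ => hn⟩
    · exact ⟨0, fun h => absurd h hr⟩
  choose n₂ hn₂ using hB
  refine ⟨n₁ + n₃ + ∑ r ∈ Finset.range (R + 1), n₂ r, ?_⟩
  intro Ω _ _ _ B g h hg hB2 hn hgr hm hi hrec hs hfrom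
  obtain ⟨ι⟩ : Nonempty (Ω →+* ℂ) := inferInstance
  obtain ⟨π, hπ, hπ2⟩ := exists_bridge ι hg hB2 hgr hm hi hs hfrom
  have hdegrat : (rat h).natDegree = h.natDegree := by
    rw [rat]
    exact natDegree_map_eq_of_injective (Int.castRingHom ℚ).injective_int h
  have hirr : Irreducible (rat h) :=
    (Polynomial.IsPrimitive.Int.irreducible_iff_irreducible_map_cast hm.isPrimitive).1 hi
  have haev : ∀ θ : (rat h).SplittingField, aeval θ (rat h) = aeval θ h := by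
    intro θ
    change aeval θ (h.map (algebraMap ℤ ℚ)) = _
    exact aeval_map_algebraMap ℚ θ h
  obtain ⟨θ₀, hθ₀⟩ := exists_root_split (rat h) (by
    intro h0
    exact hirr.not_isUnit (isUnit_iff_degree_eq_zero.2 h0))
  obtain ⟨x, hx, hkey, hQ⟩ := hπ2 θ₀ ((haev θ₀).symm.trans hθ₀)
  have horb : SX.osz (rep (Ω ≃ₐ[ℚ] Ω)) (lg ι x) = g.natDegree := card_orbit_lg ι hg hB2 x hx
  have hdeg : g.natDegree = 2 * h.natDegree := by
    rw [← hrec]
    exact (recip_monic h hm).2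
  have hHyp : SX.HypB (rep (Ω ≃ₐ[ℚ] Ω)) (lg ι x) R D := by
    intro r hr1 hrR u hu
    have hle : n₂ r ≤ ∑ r ∈ Finset.range (R + 1), n₂ r :=
      Finset.single_le_sum (f := n₂) (fun _ _ => Nat.zero_le _) (Finset.mem_range.2 (by omega))
    rw [horb]
    exact hn₂ r hr1 Ω ι B g hg hB2 (by omega) x hx u hu
  obtain ⟨q, hq1, hq2, hq3⟩ := hroot g.natDegree (by omega)
  have hHL := hL (rep (Ω ≃ₐ[ℚ] Ω)) (lg ι x) (by rw [horb]; omega) hHyp
  have key := final_gen (rat h) hirr θ₀ hθ₀ h.natDegree κ hdegrat (rep (Ω ≃ₐ[ℚ] Ω)) (lg ι x) π hπ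
    hkey (by rw [horb, hdeg]) (by omega) hHL hq1 (by rw [horb]; exact hq2) (by
      rw [hdeg] at hq3
      have : 2 * ((9 * κ ^ 2 + 1) * q ^ (κ + 4)) < 2 * h.natDegree := by
        calc 2 * ((9 * κ ^ 2 + 1) * q ^ (κ + 4)) = 2 * (9 * κ ^ 2 + 1) * q ^ (κ + 4) := by ring
          _ < _ := hq3
      omega)
  exact key

/-- The reduction of Lehmer's problem: uniqueness of the minimal normal subgroup, almost
transitivity, almost simple groups and alternating groups. -/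
theorem finalP (κ : ℕ) : ∃ c : ℝ, 0 < c ∧
    (∀ f : ℤ[X], 1 < M f → SX.SmallFactors κ (rat f).Gal → 1 + c ≤ M f) ∧
    (∀ f : ℤ[X], 1 < M f → M f < 1 + c → ∃ h : ℤ[X], h.Monic ∧ Irreducible h ∧
      (h.map (Int.castRingHom (rat f).SplittingField)).Splits ∧
      1 < M (recip h) ∧ M (recip h) ≤ M f ∧
      (∀ N : Subgroup (rat h).Gal, N.Normal → Group.IsSolvable N → N = ⊥) ∧
      (∃! N : Subgroup (rat h).Gal, SX.MinNormal N) ∧
      (∀ θ : (rat h).SplittingField, aeval θ h = 0 → ASOver ℚ θ h.natDegree κ) ∧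
      Tup (rat h) h.natDegree κ ∧
      ∀ θ : (rat h).SplittingField, aeval θ (rat h) = 0 → AltAt (K := ℚ) θ h.natDegree κ) := by
  obtain ⟨c₁, hc₁, hI, -⟩ := finalX κ
  obtain ⟨n₀, hcore⟩ := coreF
  obtain ⟨n₁, hcoreP⟩ := coreP κ
  obtain ⟨n₂, hcoreAS⟩ := coreAS κ
  obtain ⟨n₃, hcoreU⟩ := coreU
  obtain ⟨c₂, hc₂, hc2, hpair⟩ := exists_pair (max n₀ (max n₁ (max n₂ n₃)))
  refine ⟨min c₁ c₂, lt_min hc₁ hc₂, ?_, ?_⟩
  · intro f hf1 hsf
    have := hI f hf1 hsf
    have := min_le_left c₁ c₂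
    linarith
  · intro f hf1 hf2
    have hmin := min_le_right c₁ c₂
    have hlt2 : M f < 2 := by linarith
    obtain ⟨g, h, hg, hgn, hgr, hm, hi, hrec, hspl, hto, hfrom⟩ := hpair f hf1 (by linarith)
    have hg0 : n₀ ≤ g.natDegree := (le_max_left _ _).trans hgn
    have hg1 : n₁ ≤ g.natDegree := ((le_max_left _ _).trans (le_max_right _ _)).trans hgn
    have hg2 : n₂ ≤ g.natDegree :=
      (((le_max_left _ _).trans (le_max_right _ _)).trans (le_max_right _ _)).trans hgn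
    have hg3 : n₃ ≤ g.natDegree :=
      (((le_max_right _ _).trans (le_max_right _ _)).trans (le_max_right _ _)).trans hgn
    have hsol := hcore (rat f).SplittingField (M f) g h hg hlt2 hg0
      hgr hm hi hspl hto hfrom
    have hP := hcoreP (rat f).SplittingField (M f) g h hg hlt2 hg1 hgr hm hi hrec hspl hfrom
    refine ⟨h, hm, hi, ?_, ?_, ?_, ?_, ?_, ?_, hP.1, hP.2⟩
    · exact hspl
    · rw [hrec]; exact hg.one_lt
    · rw [hrec]; exact hg.le
    · exact hsol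
    · exact hcoreU (rat f).SplittingField (M f) g h hg hlt2 hg3 hgr hm hi hrec hspl hfrom hsol
    · exact hcoreAS (rat f).SplittingField (M f) g h hg hlt2 hg2 hgr hm hi hrec hspl hfrom
        hsol

end Pool.Agent.Lib.MP_7ab245_nt.Solv.AT
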